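import Pool.Agent.Helper26.Ip.Tools

/-!
# Package LIP: a local gradient bound and the Lipschitz bound of the translations
-/

set_option autoImplicit false
set_option linter.unusedSectionVars false
open MeasureTheory Filter Topology ProbabilityTheory
open scoped ContDiff ENNReal InnerProductSpace

namespace Pool.Agent.Helper12.Ip

open Pool.Agent.N661.BR (MW J0 IsStationary shift meas_eval meas_shift IsGaussianLaw lin meas_lin)
open Pool.Agent.Helper37.BC
open Pool.Agent.Helper26.Ip
open Complex (I)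

noncomputable section

/-! ## The kernel -/

/-- the kernel -/
def hat (y : ℂ) : ℝ := max (1 - ‖y‖) 0

theorem hat_cont : Continuous hat := by
  unfold hat
  fun_prop

theorem hat_nonneg (y : ℂ) : 0 ≤ hat y := le_max_right _ _

theorem hat_le (y : ℂ) : hat y ≤ 1 := by
  unfold hat
  refine max_le ?_ zero_le_one
  have := norm_nonneg y
  linarith

theorem hat_zero {y : ℂ} (h : 1 ≤ ‖y‖) : hat y = 0 := by
  unfold hat
  exact max_eq_right (by linarith)

theorem hat_lip (y x : ℂ) : |hat (y - x) - hat y| ≤ ‖x‖ := by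
  unfold hat
  refine (abs_max_sub_max_le_abs _ _ _).trans ?_
  have h1 : |(1 - ‖y - x‖) - (1 - ‖y‖)| = |‖y‖ - ‖y - x‖| := by
    congr 1
    ring
  rw [h1]
  refine (abs_norm_sub_norm_le y (y - x)).trans ?_
  rw [sub_sub_cancel]

/-- the constant -/
def c0 : ℝ := 2 * Real.pi * ∫ r in (0:ℝ)..1, r * ((1 - r) * J0 r)

theorem J0_ge {r : ℝ} (h0 : 0 ≤ r) (h1 : r ≤ 1) : Real.cos 1 ≤ J0 r := by
  have h2 : ∀ α : ℝ, Real.cos 1 ≤ Real.cos (r * Real.cos α) := by
    intro α
    rw [← Real.cos_abs (r * Real.cos α)]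
    refine Real.cos_le_cos_of_nonneg_of_le_pi (abs_nonneg _) (by linarith [Real.pi_gt_three]) ?_
    rw [abs_mul, abs_of_nonneg h0]
    calc r * |Real.cos α| ≤ 1 * 1 :=
          mul_le_mul h1 (Real.abs_cos_le_one α) (abs_nonneg _) zero_le_one
      _ = 1 := one_mul 1
  have h3 : ∫ α in (0:ℝ)..(2 * Real.pi), Real.cos 1 ≤
      ∫ α in (0:ℝ)..(2 * Real.pi), Real.cos (r * Real.cos α) :=
    intervalIntegral.integral_mono_on (by positivity) intervalIntegrable_const
      (Continuous.intervalIntegrable (by fun_prop) _ _) fun α _ => h2 α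
  rw [intervalIntegral.integral_const, sub_zero, smul_eq_mul] at h3
  unfold J0
  have hpi := Real.pi_pos
  rw [one_div, inv_mul_eq_div, le_div_iff₀ (by positivity)]
  linarith

theorem c0_pos : 0 < c0 := by
  unfold c0
  refine mul_pos (by positivity) ?_
  refine intervalIntegral.intervalIntegral_pos_of_pos_on ?_ ?_ zero_lt_one
  · exact Continuous.intervalIntegrable
      (continuous_id.mul ((continuous_const.sub continuous_id).mul J0_cont)) _ _
  · intro r hr
    have h1 := J0_ge hr.1.le hr.2.le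
    have h2 := Real.cos_one_pos
    have h3 : 0 < 1 - r := by linarith [hr.2]
    exact mul_pos hr.1 (mul_pos h3 (by linarith))

/-- the mean value property with the kernel -/
def Rep (g : ℂ → ℝ) : Prop := Continuous g ∧ ∀ z, ∫ y, hat y * g (z + y) = c0 * g z

theorem rep_wave (f : MW) : Rep f := by
  refine ⟨f.2.1.continuous, fun z => ?_⟩
  have hc : Continuous fun y : ℂ => hat y * f (z + y) :=
    hat_cont.mul (f.2.1.continuous.comp (by fun_prop))
  have h1 : ∫ y, hat y * f (z + y) = ∫ y in Metric.ball (0:ℂ) 1, hat y * f (z + y) := by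
    rw [setIntegral_eq_integral_of_forall_compl_eq_zero]
    intro y hy
    rw [mem_ball_zero_iff, not_lt] at hy
    rw [hat_zero hy, zero_mul]
  rw [h1, polar hc zero_le_one]
  have h2 : ∫ r in (0:ℝ)..1, r * ∫ θ in (0:ℝ)..(2 * Real.pi), hat ((r:ℂ) * ee θ) *
      f (z + r * ee θ) = ∫ r in (0:ℝ)..1, (2 * Real.pi * f z) * (r * ((1 - r) * J0 r)) := by
    refine intervalIntegral.integral_congr fun r hr => ?_
    rw [Set.uIcc_of_le zero_le_one] at hr
    have hn : ∀ θ : ℝ, hat ((r:ℂ) * ee θ) = 1 - r := fun θ => by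
      unfold hat
      rw [norm_mul, ee_norm, mul_one, Complex.norm_real, Real.norm_eq_abs, abs_of_nonneg hr.1]
      exact max_eq_left (by linarith [hr.2])
    show r * ∫ θ in (0:ℝ)..(2 * Real.pi), hat ((r:ℂ) * ee θ) * f (z + r * ee θ) = _
    simp_rw [hn]
    rw [intervalIntegral.integral_const_mul]
    have := AA_eq f.2.1 f.2.2 z hr.1
    unfold AA at this
    rw [this]
    ring
  rw [h2, intervalIntegral.integral_const_mul]
  unfold c0
  ring

theorem hat_int {g : ℂ → ℝ} (hg : Continuous g) (x : ℂ) : Integrable fun y => hat (y - x) * g y := by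
  refine Continuous.integrable_of_hasCompactSupport ?_ ?_
  · exact (hat_cont.comp (continuous_id.sub continuous_const)).mul hg
  · refine HasCompactSupport.intro (isCompact_closedBall x 1) fun y hy => ?_
    rw [Metric.mem_closedBall, not_le, dist_eq_norm] at hy
    rw [hat_zero hy.le, zero_mul]

theorem hat_int' {g : ℂ → ℝ} (hg : Continuous g) (z : ℂ) :
    Integrable fun y => hat y * g (z + y) := by
  have h1 := hat_int (g := fun y => g (z + y)) (hg.comp (by fun_prop)) 0
  simpa only [sub_zero] using h1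

theorem Rep.add {g k : ℂ → ℝ} (hg : Rep g) (hk : Rep k) : Rep fun y => g y + k y := by
  refine ⟨hg.1.add hk.1, fun z => ?_⟩
  have h1 : ∀ y : ℂ, hat y * (g (z + y) + k (z + y)) = hat y * g (z + y) + hat y * k (z + y) :=
    fun y => by ring
  simp_rw [h1]
  rw [integral_add (hat_int' hg.1 z) (hat_int' hk.1 z), hg.2, hk.2]
  ring

theorem Rep.smul {g : ℂ → ℝ} (hg : Rep g) (t : ℝ) : Rep fun y => t * g y := by
  refine ⟨continuous_const.mul hg.1, fun z => ?_⟩
  have h1 : ∀ y : ℂ, hat y * (t * g (z + y)) = t * (hat y * g (z + y)) := fun y => by ring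
  simp_rw [h1]
  rw [integral_const_mul, hg.2]
  ring

theorem Rep.bound {g : ℂ → ℝ} (hg : Rep g) {x : ℂ} (hx : ‖x‖ ≤ 1) :
    |g x - g 0| ≤ c0⁻¹ * ‖x‖ * ∫ y in Metric.ball (0:ℂ) 2, |g y| := by
  have hc := c0_pos
  have h1 : ∀ z : ℂ, c0 * g z = ∫ y, hat (y - z) * g y := by
    intro z
    rw [← hg.2 z]
    have e1 : ∀ y : ℂ, hat y * g (z + y) = (fun y => hat (y - z) * g y) (y + z) := by
      intro y
      simp [add_comm]
    simp_rw [e1]
    rw [integral_add_right_eq_self (fun y => hat (y - z) * g y) z]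
  have h2 : c0 * (g x - g 0) = ∫ y, (hat (y - x) - hat (y - 0)) * g y := by
    rw [mul_sub, h1 x, h1 0, ← integral_sub (hat_int hg.1 x) (hat_int hg.1 0)]
    refine integral_congr_ae (Eventually.of_forall fun y => ?_)
    show hat (y - x) * g y - hat (y - 0) * g y = (hat (y - x) - hat (y - 0)) * g y
    ring
  have h3 : ∀ y : ℂ, ‖(hat (y - x) - hat (y - 0)) * g y‖ ≤
      (Metric.ball (0:ℂ) 2).indicator (fun y => ‖x‖ * |g y|) y := by
    intro y
    rw [sub_zero, norm_mul, Real.norm_eq_abs, Real.norm_eq_abs]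
    by_cases hy : y ∈ Metric.ball (0:ℂ) 2
    · rw [Set.indicator_of_mem hy]
      exact mul_le_mul_of_nonneg_right (hat_lip y x) (abs_nonneg _)
    · rw [Set.indicator_of_notMem hy]
      rw [mem_ball_zero_iff, not_lt] at hy
      have h4 : 1 ≤ ‖y - x‖ := by
        have := norm_sub_norm_le y x
        linarith
      rw [hat_zero h4, hat_zero (by linarith : 1 ≤ ‖y‖), sub_zero, abs_zero, zero_mul]
  have h4 : Integrable ((Metric.ball (0:ℂ) 2).indicator fun y => ‖x‖ * |g y|) :=
    (integrable_indicator_iff Metric.isOpen_ball.measurableSet).2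
      (cont_ball (continuous_const.mul hg.1.abs) _)
  have h5 : |c0 * (g x - g 0)| ≤ ‖x‖ * ∫ y in Metric.ball (0:ℂ) 2, |g y| := by
    rw [h2, ← Real.norm_eq_abs]
    refine (norm_integral_le_of_norm_le h4 (Eventually.of_forall h3)).trans (le_of_eq ?_)
    rw [integral_indicator Metric.isOpen_ball.measurableSet, integral_const_mul]
  rw [abs_mul, abs_of_pos hc] at h5
  rw [mul_assoc, inv_mul_eq_div, le_div_iff₀ hc]
  linarith

/-- LIP0: a local gradient bound -/
theorem grad_bound : ∃ C : ℝ, 0 ≤ C ∧ ∀ (f : MW) (x : ℂ), ‖x‖ ≤ 1 →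
    |f x - f 0| ≤ C * ‖x‖ * ∫ y in Metric.ball (0:ℂ) 2, |f y| :=
  ⟨c0⁻¹, inv_nonneg.2 c0_pos.le, fun f _ hx => (rep_wave f).bound hx⟩

/-! ## The translations -/

variable {μ : Measure MW} [IsProbabilityMeasure μ]

theorem norm_sq (c : Lp ℝ 2 μ) : ‖c‖ ^ 2 = ∫ f, c f ^ 2 ∂μ := by
  rw [← real_inner_self_eq_norm_sq, L2.inner_def]
  refine integral_congr_ae (Eventually.of_forall fun f => ?_)
  show inner ℝ (c f) (c f) = c f ^ 2
  rw [real_inner_self_eq_norm_sq, Real.norm_eq_abs, sq_abs]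

/-- a stationary family of functions with the kernel property -/
structure Tr (μ : Measure MW) (T : MW → ℂ → ℝ) : Prop where
  rep : ∀ f, Rep (T f)
  meas : Measurable fun p : ℂ × MW => T p.2 p.1
  sh : ∀ (f : MW) (x y : ℂ), T (shift x f) y = T f (y + x)
  two : MemLp (fun f => T f 0) 2 μ

theorem Tr.sq (hs : IsStationary μ) {T : MW → ℂ → ℝ} (h : Tr μ T) (y : ℂ) :
    Integrable (fun f => T f y ^ 2) μ ∧ ∫ f, T f y ^ 2 ∂μ = ∫ f, T f 0 ^ 2 ∂μ := by
  have h0 : Integrable (fun f => T f 0 ^ 2) μ := h.two.integrable_sq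
  have hm : Measurable fun f => T f 0 :=
    h.meas.comp (measurable_const.prodMk measurable_id)
  have e : ∀ f : MW, T (shift y f) 0 = T f y := fun f => by rw [h.sh, zero_add]
  constructor
  · have h3 := ((mp_shift hs y).integrable_comp h0.aestronglyMeasurable).2 h0
    refine h3.congr (Eventually.of_forall fun f => ?_)
    show T (shift y f) 0 ^ 2 = T f y ^ 2
    rw [e]
  · rw [← int_shift hs (F := fun f => T f 0 ^ 2) (hm.pow_const 2) y]
    refine integral_congr_ae (Eventually.of_forall fun f => ?_)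
    show T f y ^ 2 = T (shift y f) 0 ^ 2
    rw [e]

theorem Tr.ball (hs : IsStationary μ) {T : MW → ℂ → ℝ} (h : Tr μ T) :
    Integrable (fun f => (∫ y in Metric.ball (0:ℂ) 2, |T f y|) ^ 2) μ ∧
    ∫ f, (∫ y in Metric.ball (0:ℂ) 2, |T f y|) ^ 2 ∂μ ≤
      (volume.real (Metric.ball (0:ℂ) 2)) ^ 2 * ∫ f, T f 0 ^ 2 ∂μ := by
  set B := Metric.ball (0:ℂ) 2 with hB
  have hV : 0 < volume.real B := by
    rw [measureReal_def]
    exact ENNReal.toReal_pos (ball_pos (by norm_num)) (ball_fin _)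
  have hfin : IsFiniteMeasure (volume.restrict B) := ⟨by
    rw [Measure.restrict_apply_univ]; exact measure_ball_lt_top⟩
  have hj : Integrable (fun p : ℂ × MW => |T p.2 p.1| ^ 2) ((volume.restrict B).prod μ) := by
    rw [integrable_prod_iff (h.meas.abs.pow_const 2).aestronglyMeasurable]
    refine ⟨Eventually.of_forall fun x => ?_, ?_⟩
    · simpa only [sq_abs] using (h.sq hs x).1
    · have e : ∀ x : ℂ, ∫ f : MW, ‖|T f x| ^ 2‖ ∂μ = ∫ f : MW, T f 0 ^ 2 ∂μ := by
        intro x
        rw [← (h.sq hs x).2]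
        refine integral_congr_ae (Eventually.of_forall fun f => ?_)
        show ‖|T f x| ^ 2‖ = T f x ^ 2
        rw [Real.norm_eq_abs, abs_of_nonneg (by positivity), sq_abs]
      simp only [e]
      exact integrable_const _
  have hj1 : Integrable (fun p : ℂ × MW => |T p.2 p.1|) ((volume.restrict B).prod μ) := by
    refine (hj.add (integrable_const (1:ℝ))).mono' h.meas.abs.aestronglyMeasurable
      (Eventually.of_forall fun p => ?_)
    rw [Real.norm_eq_abs, abs_abs]
    show |T p.2 p.1| ≤ |T p.2 p.1| ^ 2 + 1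
    nlinarith [sq_nonneg (|T p.2 p.1| - 1), abs_nonneg (T p.2 p.1)]
  have hmeas : AEStronglyMeasurable (fun f => ∫ y in B, |T f y|) μ :=
    (hj1.swap).integral_prod_left.aestronglyMeasurable
  have h1 : Integrable (fun f => ∫ y in B, |T f y| ^ 2) μ := (hj.swap).integral_prod_left
  -- Cauchy-Schwarz
  have hcs : ∀ f : MW, (∫ y in B, |T f y|) ^ 2 ≤ volume.real B * ∫ y in B, |T f y| ^ 2 := by
    intro f
    have hc : Continuous fun x : ℂ => |T f x| := (h.rep f).1.abs
    have h3 := (convexOn_pow (𝕜 := ℝ) 2).map_set_average_le (μ := volume) (t := B)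
      (f := fun x : ℂ => |T f x|) ((continuous_pow 2).continuousOn) isClosed_Ici
      (ball_pos (by norm_num)) (ball_fin _)
      (Eventually.of_forall fun x => Set.mem_Ici.2 (abs_nonneg _))
      (cont_ball hc _) (cont_ball (hc.pow 2) _)
    have h3' : ((volume.real B)⁻¹ * ∫ y in B, |T f y|) ^ 2 ≤
        (volume.real B)⁻¹ * ∫ y in B, |T f y| ^ 2 := by
      have := h3
      rw [setAverage_eq, setAverage_eq, smul_eq_mul, smul_eq_mul] at this
      exact this
    have h4 := mul_le_mul_of_nonneg_left h3' (by positivity : 0 ≤ (volume.real B) ^ 2)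
    have e1 : (volume.real B) ^ 2 * ((volume.real B)⁻¹ * ∫ y in B, |T f y|) ^ 2 =
        (∫ y in B, |T f y|) ^ 2 := by
      field_simp
    have e2 : (volume.real B) ^ 2 * ((volume.real B)⁻¹ * ∫ y in B, |T f y| ^ 2) =
        volume.real B * ∫ y in B, |T f y| ^ 2 := by
      field_simp
    rw [e1, e2] at h4
    exact h4
  have hint : Integrable (fun f => (∫ y in B, |T f y|) ^ 2) μ := by
    refine (h1.const_mul (volume.real B)).mono' (hmeas.pow 2) (Eventually.of_forall fun f => ?_)
    rw [Real.norm_eq_abs, abs_of_nonneg (sq_nonneg _)]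
    exact hcs f
  refine ⟨hint, ?_⟩
  calc ∫ f, (∫ y in B, |T f y|) ^ 2 ∂μ ≤ ∫ f, volume.real B * (∫ y in B, |T f y| ^ 2) ∂μ :=
        integral_mono hint (h1.const_mul _) hcs
    _ = volume.real B * ∫ f, (∫ y in B, |T f y| ^ 2) ∂μ := integral_const_mul _ _
    _ = volume.real B * ∫ y in B, (∫ f, |T f y| ^ 2 ∂μ) := by
        congr 1
        exact (integral_integral_swap (f := fun (y : ℂ) (f : MW) => |T f y| ^ 2) hj).symm
    _ = volume.real B * ∫ y in B, (∫ f, T f 0 ^ 2 ∂μ) := by
        congr 1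
        refine integral_congr_ae (Eventually.of_forall fun y => ?_)
        show ∫ f, |T f y| ^ 2 ∂μ = ∫ f, T f 0 ^ 2 ∂μ
        rw [← (h.sq hs y).2]
        refine integral_congr_ae (Eventually.of_forall fun f => ?_)
        exact sq_abs _
    _ = (volume.real B) ^ 2 * ∫ f, T f 0 ^ 2 ∂μ := by
        rw [setIntegral_const, smul_eq_mul]
        ring

/-- elements of the span of the values -/
theorem span_tr (hs : IsStationary μ) (h2 : Integrable (fun f : MW => f 0 ^ 2) μ)
    {c : Lp ℝ 2 μ} (hc : c ∈ Submodule.span ℝ (Set.range (V hs h2))) :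
    ∃ T : MW → ℂ → ℝ, Tr μ T ∧ c =ᵐ[μ] fun f => T f 0 := by
  induction hc using Submodule.span_induction with
  | mem x hx =>
    obtain ⟨w, rfl⟩ := hx
    refine ⟨fun f y => f (y + w), ⟨fun f => ?_, ?_, fun f x y => ?_, ?_⟩, ?_⟩
    · exact rep_wave (shift w f)
    · exact meas_ev.comp ((measurable_fst.add_const w).prodMk measurable_snd)
    · show f (y + w + x) = f (y + x + w)
      rw [add_right_comm]
    · have := eval_two hs h2 (0 + w)
      exact this
    · have := V_coe hs h2 w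
      refine this.trans (Eventually.of_forall fun f => ?_)
      show f w = f (0 + w)
      rw [zero_add]
  | zero =>
    refine ⟨fun _ _ => 0, ⟨fun f => ⟨continuous_const, fun z => by simp⟩, measurable_const,
      fun _ _ _ => rfl, ?_⟩, ?_⟩
    · exact memLp_const 0
    · exact Lp.coeFn_zero ℝ 2 μ
  | add x y _ _ hx hy =>
    obtain ⟨T, h1, h2'⟩ := hx
    obtain ⟨T', h3, h4⟩ := hy
    refine ⟨fun f y => T f y + T' f y, ⟨fun f => (h1.rep f).add (h3.rep f), h1.meas.add h3.meas,
      fun f x y => ?_, h1.two.add h3.two⟩, ?_⟩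
    · show T (shift x f) y + T' (shift x f) y = T f (y + x) + T' f (y + x)
      rw [h1.sh, h3.sh]
    · refine (Lp.coeFn_add x y).trans ?_
      filter_upwards [h2', h4] with f e1 e2
      rw [Pi.add_apply, e1, e2]
  | smul t x _ hx =>
    obtain ⟨T, h1, h2'⟩ := hx
    refine ⟨fun f y => t * T f y, ⟨fun f => (h1.rep f).smul t, h1.meas.const_mul t,
      fun f x y => ?_, h1.two.const_mul t⟩, ?_⟩
    · show t * T (shift x f) y = t * T f (y + x)
      rw [h1.sh]
    · refine (Lp.coeFn_smul t x).trans ?_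
      filter_upwards [h2'] with f e1
      rw [Pi.smul_apply, e1, smul_eq_mul]

/-- LIP1 -/
theorem lip (hs : IsStationary μ) (h2 : Integrable (fun f : MW => f 0 ^ 2) μ) :
    ∃ C : ℝ, 0 ≤ C ∧ ∀ x : ℂ, ∀ c ∈ values μ, ‖S hs x c - c‖ ≤ C * ‖x‖ * ‖c‖ := by
  set v := volume.real (Metric.ball (0:ℂ) 2) with hv
  have hv0 : 0 ≤ v := measureReal_nonneg
  have hc0 := c0_pos
  have hC0 : 0 ≤ c0⁻¹ * v := mul_nonneg (inv_nonneg.2 hc0.le) hv0
  refine ⟨c0⁻¹ * v + 2, by positivity, fun x c hc => ?_⟩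
  have hspan : ∀ c ∈ Submodule.span ℝ (Set.range (V hs h2)),
      ‖S hs x c - c‖ ≤ (c0⁻¹ * v + 2) * ‖x‖ * ‖c‖ := by
    intro c hc
    rcases le_total ‖x‖ 1 with hx | hx
    · obtain ⟨T, hT, hcT⟩ := span_tr hs h2 hc
      have hS : (S hs x c : MW → ℝ) =ᵐ[μ] fun f => T f x := by
        refine (S_coe hs x c).trans ?_
        refine ((mp_shift hs x).quasiMeasurePreserving.ae_eq_comp hcT).trans ?_
        refine Eventually.of_forall fun f => ?_
        show T (shift x f) 0 = T f x
        rw [hT.sh, zero_add]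
      have hdiff : ((S hs x c - c : Lp ℝ 2 μ) : MW → ℝ) =ᵐ[μ] fun f => T f x - T f 0 := by
        refine (Lp.coeFn_sub _ _).trans ?_
        filter_upwards [hS, hcT] with f e1 e2
        rw [Pi.sub_apply, e1, e2]
      have hc2 : ‖c‖ ^ 2 = ∫ f, T f 0 ^ 2 ∂μ := by
        rw [norm_sq]
        refine integral_congr_ae ?_
        filter_upwards [hcT] with f e1
        rw [e1]
      obtain ⟨b1, b2⟩ := hT.ball hs
      have hle : ‖S hs x c - c‖ ^ 2 ≤ ((c0⁻¹ * v) * ‖x‖ * ‖c‖) ^ 2 := by
        rw [norm_sq]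
        have e1 : ∫ f, ((S hs x c - c : Lp ℝ 2 μ) : MW → ℝ) f ^ 2 ∂μ =
            ∫ f, (T f x - T f 0) ^ 2 ∂μ := by
          refine integral_congr_ae ?_
          filter_upwards [hdiff] with f e1
          rw [e1]
        rw [e1]
        have hpt : ∀ f : MW, (T f x - T f 0) ^ 2 ≤
            (c0⁻¹ * ‖x‖) ^ 2 * (∫ y in Metric.ball (0:ℂ) 2, |T f y|) ^ 2 := by
          intro f
          rw [← mul_pow, ← sq_abs (T f x - T f 0)]
          exact pow_le_pow_left₀ (abs_nonneg _) ((hT.rep f).bound hx) 2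
        have hint : Integrable (fun f => (T f x - T f 0) ^ 2) μ := by
          have hm : Measurable fun f => T f x - T f 0 :=
            (hT.meas.comp (measurable_const.prodMk measurable_id)).sub
              (hT.meas.comp (measurable_const.prodMk measurable_id))
          refine (b1.const_mul ((c0⁻¹ * ‖x‖) ^ 2)).mono' (hm.pow_const 2).aestronglyMeasurable
            (Eventually.of_forall fun f => ?_)
          rw [Real.norm_eq_abs, abs_of_nonneg (sq_nonneg _)]
          exact hpt f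
        calc ∫ f, (T f x - T f 0) ^ 2 ∂μ ≤
            ∫ f, (c0⁻¹ * ‖x‖) ^ 2 * (∫ y in Metric.ball (0:ℂ) 2, |T f y|) ^ 2 ∂μ :=
              integral_mono hint (b1.const_mul _) hpt
          _ = (c0⁻¹ * ‖x‖) ^ 2 * ∫ f, (∫ y in Metric.ball (0:ℂ) 2, |T f y|) ^ 2 ∂μ :=
              integral_const_mul _ _
          _ ≤ (c0⁻¹ * ‖x‖) ^ 2 * (v ^ 2 * ∫ f, T f 0 ^ 2 ∂μ) :=
              mul_le_mul_of_nonneg_left b2 (sq_nonneg _)
          _ = ((c0⁻¹ * v) * ‖x‖ * ‖c‖) ^ 2 := by
              rw [← hc2]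
              ring
      have h5 : ‖S hs x c - c‖ ≤ (c0⁻¹ * v) * ‖x‖ * ‖c‖ :=
        (pow_le_pow_iff_left₀ (norm_nonneg _) (by positivity) two_ne_zero).1 hle
      refine h5.trans ?_
      have : 0 ≤ ‖x‖ * ‖c‖ := by positivity
      nlinarith
    · have h5 : ‖S hs x c - c‖ ≤ ‖c‖ + ‖c‖ := by
        refine (norm_sub_le _ _).trans ?_
        rw [(S hs x).norm_map]
      have h6 : ‖c‖ ≤ ‖x‖ * ‖c‖ := le_mul_of_one_le_left (norm_nonneg _) hx
      have h7 : 0 ≤ (c0⁻¹ * v) * (‖x‖ * ‖c‖) := by positivity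
      nlinarith
  rw [values_eq hs h2] at hc
  have hclosed : IsClosed {c : Lp ℝ 2 μ | ‖S hs x c - c‖ ≤ (c0⁻¹ * v + 2) * ‖x‖ * ‖c‖} :=
    isClosed_le (((S hs x).continuous.sub continuous_id).norm)
      (continuous_const.mul continuous_norm)
  exact (hclosed.closure_subset_iff.2 fun c hc => hspan c hc) hc

end

end Pool.Agent.Helper12.Ip
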